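import Pool.Agent.H12R3.VR.Stmts

set_option autoImplicit false

/-! # Task TaskComp of project H12-VR -/

open Filter Topology

namespace H12VR

namespace CompTask

/-- the map induced on the line by an affine map which preserves the graph -/
def xi (f : ℝ → ℝ) (P : Fin 6 → ℝ) (x : ℝ) : ℝ := ax P x (f x)

lemma isOpen_Dc (f : ℝ → ℝ) : IsOpen (Dc f) := isOpen_setOfPred_eventually_nhds

lemma contOn (f : ℝ → ℝ) (P : Fin 6 → ℝ) : ContinuousOn (xi f P) (Dc f) := by
  intro x hx
  have h1 : ContinuousAt f x := Filter.Eventually.self_of_nhds hx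
  apply ContinuousAt.continuousWithinAt
  unfold xi ax
  fun_prop

lemma left_inv (hI : TaskInvAut) {f : ℝ → ℝ} {P : Fin 6 → ℝ} (hP : Aut f P) (x : ℝ) :
    xi f (inv P) (xi f P x) = x := (hI f P hP).2 x

lemma right_inv (hI : TaskInvAut) {f : ℝ → ℝ} {P : Fin 6 → ℝ} (hP : Aut f P) (y : ℝ) :
    xi f P (xi f (inv P) y) = y := by
  obtain ⟨x, rfl⟩ := hP.2.2 y
  show xi f P (xi f (inv P) (xi f P x)) = xi f P x
  rw [left_inv hI hP]

lemma image_sub (hD : TaskAutD) {f : ℝ → ℝ} {P : Fin 6 → ℝ} (hP : Aut f P) {x : ℝ}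
    (hx : x ∈ Dc f) : xi f P '' connectedComponentIn (Dc f) x ⊆
      connectedComponentIn (Dc f) (xi f P x) := by
  apply IsPreconnected.subset_connectedComponentIn
  · exact isPreconnected_connectedComponentIn.image _
      ((contOn f P).mono (connectedComponentIn_subset _ _))
  · exact ⟨x, mem_connectedComponentIn hx, rfl⟩
  · rintro _ ⟨y, hy, rfl⟩
    exact hD f P hP y (connectedComponentIn_subset _ _ hy)

lemma image_eq (hD : TaskAutD) (hI : TaskInvAut) {f : ℝ → ℝ} {P : Fin 6 → ℝ} (hP : Aut f P)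
    {x : ℝ} (hx : x ∈ Dc f) : xi f P '' connectedComponentIn (Dc f) x =
      connectedComponentIn (Dc f) (xi f P x) := by
  refine subset_antisymm (image_sub hD hP hx) ?_
  intro y hy
  have h1 := image_sub hD (hI f P hP).1 (x := xi f P x) (hD f P hP x hx)
  rw [left_inv hI hP] at h1
  exact ⟨xi f (inv P) y, h1 ⟨y, hy, rfl⟩, right_inv hI hP y⟩

end CompTask

open CompTask

theorem taskComp : TaskComp := by
  intro hD hI f x₀ hx₀ Pf hPf
  have hq : ∀ c : ℝ, 0 < c → ∃ q : ℚ, (q : ℝ) ∈ connectedComponentIn (Dc f) (xi f (Pf c) x₀) := by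
    intro c hc
    have h1 : IsOpen (connectedComponentIn (Dc f) (xi f (Pf c) x₀)) :=
      (isOpen_Dc f).connectedComponentIn
    have h2 : (connectedComponentIn (Dc f) (xi f (Pf c) x₀)).Nonempty :=
      ⟨_, mem_connectedComponentIn (hD f (Pf c) (hPf c hc) x₀ hx₀)⟩
    obtain ⟨_, hy, ⟨q, rfl⟩⟩ := Rat.denseRange_cast.inter_open_nonempty _ h1 h2
    exact ⟨q, hy⟩
  obtain ⟨q, hCq⟩ : ∃ q : ℚ,
      ¬ {c : ℝ | 0 < c ∧ (q : ℝ) ∈ connectedComponentIn (Dc f) (xi f (Pf c) x₀)}.Countable := by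
    by_contra hcon
    push Not at hcon
    have h1 : (⋃ q : ℚ, {c : ℝ | 0 < c ∧ (q : ℝ) ∈ connectedComponentIn (Dc f)
        (xi f (Pf c) x₀)}).Countable := Set.countable_iUnion hcon
    have h2 : (Set.Ioi (0 : ℝ)).Countable := h1.mono fun c hc => by
      obtain ⟨q, hq⟩ := hq c hc
      exact Set.mem_iUnion.2 ⟨q, hc, hq⟩
    have h3 := h2.le_aleph0
    rw [Cardinal.mk_Ioi_real] at h3
    exact absurd Cardinal.aleph0_lt_continuum (not_lt.2 h3)
  refine ⟨_, fun c hc => hc.1, hCq, fun c hc c' hc' N hN => ?_⟩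
  have hinj : Function.Injective (xi f (Pf c')) :=
    Function.LeftInverse.injective (g := xi f (inv (Pf c'))) (left_inv hI (hPf c' hc'.1))
  apply hinj.image_injective
  have e1 : xi f (Pf c') '' ((fun x => ax N x (f x)) '' connectedComponentIn (Dc f) x₀) =
      xi f (Pf c) '' connectedComponentIn (Dc f) x₀ := by
    rw [Set.image_image]
    exact Set.image_congr fun x _ => hN x
  show xi f (Pf c') '' ((fun x => ax N x (f x)) '' connectedComponentIn (Dc f) x₀) =
    xi f (Pf c') '' connectedComponentIn (Dc f) x₀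
  rw [e1, image_eq hD hI (hPf c hc.1) hx₀, image_eq hD hI (hPf c' hc'.1) hx₀,
    connectedComponentIn_eq hc.2, connectedComponentIn_eq hc'.2]

end H12VR
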